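import Mathlib

set_option autoImplicit false

namespace Pool.Agent.Results.MP_07d99b_al.Yes

open MvPolynomial

lemma root (a b c : ℝ) (hc : 0 < c) : ∃ x : ℝ, 0 < x ∧ x ^ 4 - x ^ 3 + a * x ^ 2 - b * x - c = 0 := by
  have hcont : Continuous fun x : ℝ => x ^ 4 - x ^ 3 + a * x ^ 2 - b * x - c := by fun_prop
  set M := |a| + |b| + c + 2 with hM
  have ha := abs_nonneg a
  have hb := abs_nonneg b
  have ha' := neg_abs_le a
  have hb' := le_abs_self b
  have hM1 : 2 ≤ M := by linarith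
  have h2 : M ≤ M ^ 2 := by nlinarith
  have h3 : M ^ 2 ≤ M ^ 3 := by nlinarith
  have h4 : M ^ 4 = M ^ 3 * (|a| + |b| + c + 2) := by rw [← hM]; ring
  have hpos : 0 ≤ M ^ 4 - M ^ 3 + a * M ^ 2 - b * M - c := by
    have e1 : |a| * M ^ 2 ≤ |a| * M ^ 3 := mul_le_mul_of_nonneg_left h3 ha
    have e2 : |b| * M ≤ |b| * M ^ 3 := mul_le_mul_of_nonneg_left (h2.trans h3) hb
    have e3 : c * 1 ≤ c * M ^ 3 := mul_le_mul_of_nonneg_left (by linarith) hc.le
    have e4 : -|a| * M ^ 2 ≤ a * M ^ 2 := mul_le_mul_of_nonneg_right ha' (by positivity)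
    have e5 : b * M ≤ |b| * M := mul_le_mul_of_nonneg_right hb' (by linarith)
    nlinarith
  obtain ⟨x, hx, h0⟩ := intermediate_value_Icc (show (0 : ℝ) ≤ M by linarith) hcont.continuousOn
    (show (0 : ℝ) ∈ Set.Icc _ _ from ⟨by simp [hc.le], hpos⟩)
  refine ⟨x, lt_of_le_of_ne hx.1 ?_, h0⟩
  rintro rfl
  simp at h0
  linarith

lemma root3 (a b : ℝ) : ∃ x : ℝ, x ^ 3 - x ^ 2 + a * x - b = 0 := by
  have hcont : Continuous fun x : ℝ => x ^ 3 - x ^ 2 + a * x - b := by fun_prop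
  set M := |a| + |b| + 2 with hM
  have ha := abs_nonneg a
  have hb := abs_nonneg b
  have hM1 : 2 ≤ M := by linarith
  have h2 : M ≤ M ^ 2 := by nlinarith
  have h4 : M ^ 3 = M ^ 2 * (|a| + |b| + 2) := by rw [← hM]; ring
  have e1 : |a| * M ≤ |a| * M ^ 2 := mul_le_mul_of_nonneg_left h2 ha
  have e2 : |b| * 1 ≤ |b| * M ^ 2 := mul_le_mul_of_nonneg_left (by linarith) hb
  have e3 : -|a| * M ≤ a * M := mul_le_mul_of_nonneg_right (neg_abs_le a) (by linarith)
  obtain ⟨x, -, h0⟩ := intermediate_value_Icc (show -M ≤ M by linarith) hcont.continuousOn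
    (show (0 : ℝ) ∈ Set.Icc _ _ from ⟨by nlinarith [neg_abs_le b], by nlinarith [le_abs_self b]⟩)
  exact ⟨x, h0⟩

theorem result : ∃ (n : ℕ) (p : Fin n → MvPolynomial (Fin n) ℝ), 1 ≤ n ∧
    Function.Surjective (fun (x : Fin n → ℝ) (i : Fin n) => eval x (p i)) ∧
    (∀ i, eval 0 (p i) = 0) ∧ (∀ i, (p i).totalDegree ≤ i.val + 1) ∧
    {x : Fin n → ℝ | ∀ i, eval x (p i) = 0}.Infinite ∧
    (∀ T : Finset (Fin n), 1 ≤ T.card → T.card < n →
      T.card + 1 ≤ (T.biUnion fun i => (p i).vars).card) ∧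
    ∀ i m, coeff m (p i) = 0 ∨ coeff m (p i) = 1 ∨ coeff m (p i) = -1 := by
  classical
  let s : ℕ → ℕ → ℕ → Fin 3 →₀ ℕ := fun a b c => Finsupp.equivFunOnFinite.symm ![a, b, c]
  have hs : ∀ a b c a' b' c', s a b c = s a' b' c' ↔ a = a' ∧ b = b' ∧ c = c' := by
    intro a b c a' b' c'
    simp [s, Matrix.vecCons_inj]
  have ev : ∀ (x : Fin 3 → ℝ) a b c (r : ℝ),
      eval x (monomial (s a b c) r) = r * (x 0 ^ a * x 1 ^ b * x 2 ^ c) := by
    intro x a b c r
    rw [eval_monomial, Finsupp.prod_fintype _ _ (by simp)]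
    simp [s, Fin.prod_univ_three]
  have dg : ∀ a b c (r : ℝ), (monomial (s a b c) r).totalDegree ≤ a + b + c := by
    intro a b c r
    refine (totalDegree_monomial_le _ _).trans ?_
    rw [Finsupp.sum_fintype _ _ (by simp)]
    simp [s, Fin.sum_univ_three]
  let p : Fin 3 → MvPolynomial (Fin 3) ℝ :=
    ![monomial (s 1 0 0) 1 + monomial (s 0 0 1) 1, monomial (s 1 1 0) 1,
      monomial (s 3 0 0) 1 + monomial (s 1 2 0) (-1) + monomial (s 1 0 1) 1]
  have vr : ∀ i j a b c, coeff (s a b c) (p i) ≠ 0 → ![a, b, c] j ≠ 0 → j ∈ (p i).vars := by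
    intro i j a b c h1 h2
    rw [mem_vars]
    exact ⟨s a b c, by simpa using h1, by simpa [s] using h2⟩
  have v00 := vr 0 0 1 0 0 (by simp [p, coeff_monomial, hs]) (by simp)
  have v02 := vr 0 2 0 0 1 (by simp [p, coeff_monomial, hs]) (by simp)
  have v10 := vr 1 0 1 1 0 (by simp [p, coeff_monomial, hs]) (by simp)
  have v11 := vr 1 1 1 1 0 (by simp [p, coeff_monomial, hs]) (by simp)
  have v20 := vr 2 0 3 0 0 (by simp [p, coeff_monomial, hs]) (by simp)
  have v21 := vr 2 1 1 2 0 (by simp [p, coeff_monomial, hs]) (by simp)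
  have v22 := vr 2 2 1 0 1 (by simp [p, coeff_monomial, hs]) (by simp)
  refine ⟨3, p, by norm_num, fun y => ?_, fun i => ?_, fun i => ?_, ?_, fun T h1 h2 => ?_,
    fun i m => ?_⟩
  · by_cases h : y 1 = 0
    · obtain ⟨x, hx⟩ := root3 (y 0) (y 2)
      refine ⟨![x, 0, y 0 - x], funext fun i => ?_⟩
      fin_cases i <;> simp [p, ev, h]
      linarith
    · obtain ⟨x, hx, h0⟩ := root (y 0) (y 2) (y 1 ^ 2) (by positivity)
      refine ⟨![x, y 1 / x, y 0 - x], funext fun i => ?_⟩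
      fin_cases i <;> simp [p, ev]
      · field_simp
      · field_simp
        linarith
  · fin_cases i <;> simp [p, ev, -eval_zero, -eval_zero']
  · fin_cases i
    · exact (totalDegree_add _ _).trans (max_le (dg _ _ _ _) (dg _ _ _ _))
    · exact dg _ _ _ _
    · exact (totalDegree_add _ _).trans (max_le ((totalDegree_add _ _).trans
        (max_le (dg _ _ _ _) (dg _ _ _ _))) ((dg _ _ _ _).trans (by simp)))
  · refine Set.infinite_of_injective_forall_mem (f := fun t : ℝ => ![0, t, 0])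
      (fun a b h => by simpa using congrFun h 1) fun t i => ?_
    fin_cases i <;> simp [p, ev]
  · let V : Fin 3 → Finset (Fin 3) := ![{0, 2}, {0, 1}, {0, 1, 2}]
    have hV : ∀ i, V i ⊆ (p i).vars := by
      intro i
      fin_cases i <;> simp [V, Finset.insert_subset_iff, *]
    have : ∀ T : Finset (Fin 3), 1 ≤ T.card → T.card < 3 → T.card + 1 ≤ (T.biUnion V).card := by
      decide
    exact (this T h1 h2).trans (Finset.card_le_card (Finset.biUnion_mono fun i _ => hV i))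
  · fin_cases i <;> simp only [p, coeff_add, coeff_monomial, Fin.zero_eta, Fin.mk_one,
      Fin.reduceFinMk, Matrix.cons_val] <;> split_ifs <;> subst_vars <;> simp_all
  
end Pool.Agent.Results.MP_07d99b_al.Yes
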